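import Mathlib
import Pool.Agent.W450.DerLen

set_option autoImplicit false

/-!
The complete local ring of a plane and a line meeting in a point:
`R = {(a, b) ∈ ℚ⟦y,z⟧ × ℚ⟦x⟧ : a(0) = b(0)}`.  It is Noetherian, reduced, of dimension two, the powers of
its maximal ideal are integrally closed and `ℓ(R/𝔪^{n+1}) = C(n+2,2) + (n+1) - 1`.
-/

namespace Pool.Agent.N132.NH

/-! ### integral dependence and order functions -/

structure Ord {A : Type*} [CommRing A] (o : A → ℕ∞) : Prop where
  mul : ∀ f g, o (f * g) = o f + o g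
  add : ∀ f g, min (o f) (o g) ≤ o (f + g)
  zero : o 0 = ⊤
  one : o 1 = 0

section Ord

variable {A : Type*} [CommRing A] {o : A → ℕ∞}

lemma Ord.pow (h : Ord o) (f : A) (n : ℕ) : o (f ^ n) = n * o f := by
  induction n with
  | zero => simp [h.one]
  | succ n ih => rw [pow_succ, h.mul, ih]; push_cast; ring

lemma Ord.neg (h : Ord o) (f : A) : o f ≤ o (-f) := by
  rw [neg_eq_neg_one_mul, h.mul]
  exact le_add_self

lemma Ord.sum (h : Ord o) {ι : Type*} (s : Finset ι) (f : ι → A) (m : ℕ∞) (hf : ∀ i ∈ s, m ≤ o (f i)) :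
    m ≤ o (∑ i ∈ s, f i) := by
  classical
  induction s using Finset.induction_on with
  | empty => simp [h.zero]
  | insert i s hi ih =>
    rw [Finset.sum_insert hi]
    refine le_trans (le_min (hf i (Finset.mem_insert_self _ _)) (ih fun j hj => hf j
      (Finset.mem_insert_of_mem hj))) (h.add _ _)

lemma Ord.integral (h : Ord o) (n : ℕ) (x : A) (k : ℕ) (hk : 0 < k) (a : ℕ → A)
    (ha : ∀ j, ((n * j : ℕ) : ℕ∞) ≤ o (a j))
    (he : x ^ k + ∑ j ∈ Finset.range k, a (k - j) * x ^ j = 0) : (n : ℕ∞) ≤ o x := by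
  by_contra hcon
  push Not at hcon
  obtain ⟨t, ht⟩ := ENat.ne_top_iff_exists.1 (ne_top_of_lt hcon)
  rw [← ht] at hcon
  have htn : t < n := by exact_mod_cast hcon
  have h1 : ((k * t + 1 : ℕ) : ℕ∞) ≤ o (∑ j ∈ Finset.range k, a (k - j) * x ^ j) := by
    refine h.sum _ _ _ (fun j hj => ?_)
    have hj' := Finset.mem_range.1 hj
    rw [h.mul, h.pow, ← ht]
    refine le_trans ?_ (add_le_add_left (ha (k - j)) _)
    have : k * t + 1 ≤ n * (k - j) + j * t := by
      obtain ⟨i, rfl⟩ : ∃ i, k = j + (i + 1) := ⟨k - j - 1, by omega⟩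
      have : j + (i + 1) - j = i + 1 := by omega
      rw [this]
      nlinarith
    exact_mod_cast this
  have h2 : x ^ k = -∑ j ∈ Finset.range k, a (k - j) * x ^ j := eq_neg_of_add_eq_zero_left he
  have h3 : ((k * t + 1 : ℕ) : ℕ∞) ≤ o (x ^ k) := by
    rw [h2]; exact le_trans h1 (h.neg _)
  rw [h.pow, ← ht] at h3
  have h4 : k * t + 1 ≤ k * t := by exact_mod_cast h3
  omega

end Ord

abbrev A := MvPowerSeries (Fin 2) ℚ
abbrev B := PowerSeries ℚ

lemma ordA : Ord (fun f : A => f.order) where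
  mul f g := MvPowerSeries.order_mul f g
  add f g := MvPowerSeries.min_order_le_add
  zero := MvPowerSeries.order_zero
  one := by
    have := MvPowerSeries.order_ne_zero_iff_constCoeff_eq_zero (f := (1 : A))
    by_contra hcon
    have h1 := this.1 hcon
    simp at h1

lemma ordB : Ord (fun f : B => f.order) where
  mul f g := PowerSeries.order_mul f g
  add f g := PowerSeries.min_order_le_order_add f g
  zero := PowerSeries.order_zero
  one := PowerSeries.order_one

/-- the ring of a plane and a line meeting in a point -/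
def R : Subalgebra ℚ (A × B) where
  carrier := {p | MvPowerSeries.constantCoeff p.1 = PowerSeries.constantCoeff p.2}
  mul_mem' := by
    intro a b ha hb
    simp only [Set.mem_ofPred_eq] at *
    rw [Prod.fst_mul, Prod.snd_mul, map_mul, map_mul, ha, hb]
  add_mem' := by
    intro a b ha hb
    simp only [Set.mem_ofPred_eq] at *
    rw [Prod.fst_add, Prod.snd_add, map_add, map_add, ha, hb]
  algebraMap_mem' r := by
    simp only [Set.mem_ofPred_eq]
    show MvPowerSeries.constantCoeff (algebraMap ℚ A r) = PowerSeries.constantCoeff (algebraMap ℚ B r)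
    rw [MvPowerSeries.algebraMap_apply, PowerSeries.algebraMap_apply]
    simp

lemma mem_R (p : A × B) : p ∈ R ↔ MvPowerSeries.constantCoeff p.1 = PowerSeries.constantCoeff p.2 := Iff.rfl

noncomputable def fs : R →+* A := (RingHom.fst A B).comp R.subtype
noncomputable def sn : R →+* B := (RingHom.snd A B).comp R.subtype

lemma fs_apply (r : R) : fs r = r.1.1 := rfl
lemma sn_apply (r : R) : sn r = r.1.2 := rfl

noncomputable def la (a : A) : R := ⟨(a, PowerSeries.C (MvPowerSeries.constantCoeff a)), by simp [mem_R]⟩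
noncomputable def lb (b : B) : R := ⟨(MvPowerSeries.C (PowerSeries.constantCoeff b), b), by simp [mem_R]⟩

lemma fs_la (a : A) : fs (la a) = a := rfl
lemma sn_lb (b : B) : sn (lb b) = b := rfl
lemma sn_la (a : A) : sn (la a) = PowerSeries.C (MvPowerSeries.constantCoeff a) := rfl
lemma fs_lb (b : B) : fs (lb b) = MvPowerSeries.C (PowerSeries.constantCoeff b) := rfl

lemma fs_surj : Function.Surjective fs := fun a => ⟨la a, rfl⟩
lemma sn_surj : Function.Surjective sn := fun b => ⟨lb b, rfl⟩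

lemma R_ext {r s : R} (h1 : fs r = fs s) (h2 : sn r = sn s) : r = s :=
  Subtype.ext (Prod.ext h1 h2)

lemma const_eq (r : R) : MvPowerSeries.constantCoeff (fs r) = PowerSeries.constantCoeff (sn r) := r.2

/-- the constant term -/
noncomputable def c : R →+* ℚ := (MvPowerSeries.constantCoeff (σ := Fin 2) (R := ℚ)).comp fs

lemma c_fs (r : R) : MvPowerSeries.constantCoeff (fs r) = c r := rfl
lemma c_sn (r : R) : PowerSeries.constantCoeff (sn r) = c r := (const_eq r).symm

lemma isUnit_of (r : R) (h : c r ≠ 0) : IsUnit r := by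
  have h1 : MvPowerSeries.constantCoeff (fs r) ≠ 0 := h
  have h2 : PowerSeries.constantCoeff (sn r) ≠ 0 := by rw [c_sn]; exact h
  let s : R := ⟨((fs r)⁻¹, (sn r)⁻¹), by
    rw [mem_R]
    show MvPowerSeries.constantCoeff (fs r)⁻¹ = PowerSeries.constantCoeff (sn r)⁻¹
    rw [MvPowerSeries.constantCoeff_inv, PowerSeries.constantCoeff_inv, c_fs, c_sn]⟩
  refine IsUnit.of_mul_eq_one s (R_ext ?_ ?_)
  · rw [map_mul, map_one]
    exact MvPowerSeries.mul_inv_cancel _ h1
  · rw [map_mul, map_one]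
    exact PowerSeries.mul_inv_cancel _ h2

instance : IsLocalHom c := ⟨fun r hr => isUnit_of r hr.ne_zero⟩

instance : IsLocalRing R := RingHom.domain_isLocalRing c

lemma mem_max (r : R) : r ∈ IsLocalRing.maximalIdeal R ↔ c r = 0 := by
  rw [IsLocalRing.mem_maximalIdeal, mem_nonunits_iff]
  constructor
  · intro h
    by_contra h0
    exact h (isUnit_of r h0)
  · intro h hu
    exact (hu.map c).ne_zero h

instance : IsNoetherianRing R := by
  rw [isNoetherianRing_iff_ideal_fg]
  intro I
  refine Ideal.fg_of_fg_map_of_fg_inf_ker_of_surjective (f := sn) (IsNoetherian.noetherian _) ?_ sn_surj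
  refine Ideal.fg_of_fg_map_of_fg_inf_ker_of_surjective (f := fs) (IsNoetherian.noetherian _) ?_ fs_surj
  have : I ⊓ RingHom.ker sn ⊓ RingHom.ker fs = ⊥ := by
    rw [eq_bot_iff]
    rintro r ⟨⟨-, h1⟩, h2⟩
    rw [SetLike.mem_coe, RingHom.mem_ker] at h1 h2
    rw [Ideal.mem_bot]
    exact R_ext (by rw [h2, map_zero]) (by rw [h1, map_zero])
  rw [this]
  exact Submodule.fg_bot

/-- the filtration by order -/
def F (n : ℕ) : Ideal R where
  carrier := {r | (n : ℕ∞) ≤ (fs r).order ∧ (n : ℕ∞) ≤ (sn r).order}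
  add_mem' := by
    rintro r s ⟨h1, h2⟩ ⟨h3, h4⟩
    exact ⟨by rw [map_add]; exact le_trans (le_min h1 h3) (ordA.add _ _),
      by rw [map_add]; exact le_trans (le_min h2 h4) (ordB.add _ _)⟩
  zero_mem' := ⟨by rw [map_zero]; exact le_of_le_of_eq le_top ordA.zero.symm,
    by rw [map_zero]; exact le_of_le_of_eq le_top ordB.zero.symm⟩
  smul_mem' := by
    rintro r s ⟨h1, h2⟩
    refine ⟨?_, ?_⟩
    · rw [smul_eq_mul, map_mul]
      exact le_trans h1 (le_of_le_of_eq le_add_self (ordA.mul _ _).symm)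
    · rw [smul_eq_mul, map_mul]
      exact le_trans h2 (le_of_le_of_eq le_add_self (ordB.mul _ _).symm)

lemma mem_F (n : ℕ) (r : R) : r ∈ F n ↔ (n : ℕ∞) ≤ (fs r).order ∧ (n : ℕ∞) ≤ (sn r).order := Iff.rfl

lemma F_one : F 1 = IsLocalRing.maximalIdeal R := by
  ext r
  rw [mem_F, mem_max]
  constructor
  · rintro ⟨h1, -⟩
    exact MvPowerSeries.one_le_order_iff_constCoeff_eq_zero.1 (by exact_mod_cast h1)
  · intro h
    refine ⟨by exact_mod_cast MvPowerSeries.one_le_order_iff_constCoeff_eq_zero.2 h, ?_⟩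
    refine PowerSeries.nat_le_order _ _ (fun i hi => ?_)
    have : i = 0 := by omega
    subst this
    rw [PowerSeries.coeff_zero_eq_constantCoeff_apply, c_sn, h]

lemma F_mul (m n : ℕ) : F m * F n ≤ F (m + n) := by
  rw [Ideal.mul_le]
  rintro r ⟨h1, h2⟩ s ⟨h3, h4⟩
  refine ⟨?_, ?_⟩
  · rw [map_mul]
    push_cast
    exact le_of_le_of_eq (add_le_add h1 h3) (ordA.mul _ _).symm
  · rw [map_mul]
    push_cast
    exact le_of_le_of_eq (add_le_add h2 h4) (ordB.mul _ _).symm

lemma pow_le_F (n : ℕ) : IsLocalRing.maximalIdeal R ^ n ≤ F n := by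
  induction n with
  | zero =>
    intro r _
    exact ⟨by simp, by simp⟩
  | succ n ih =>
    rw [pow_succ]
    refine le_trans (Ideal.mul_mono ih (le_of_eq F_one.symm)) (F_mul n 1)


open Finsupp in
lemma decomp (n : ℕ) (a : A) (ha : ((n + 1 : ℕ) : ℕ∞) ≤ a.order) :
    ∃ a0 a1 : A, (n : ℕ∞) ≤ a0.order ∧ (n : ℕ∞) ≤ a1.order ∧
      a = MvPowerSeries.X 0 * a0 + MvPowerSeries.X 1 * a1 := by
  classical
  let a0 : A := fun e => MvPowerSeries.coeff (e + single 0 1) a
  let a1 : A := fun e => if e 0 = 0 then MvPowerSeries.coeff (e + single 1 1) a else 0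
  have c0 : ∀ e, MvPowerSeries.coeff e a0 = MvPowerSeries.coeff (e + single 0 1) a := fun e => rfl
  have c1 : ∀ e, MvPowerSeries.coeff e a1 =
      if e 0 = 0 then MvPowerSeries.coeff (e + single 1 1) a else 0 := fun e => rfl
  have hz : ∀ e : Fin 2 →₀ ℕ, e.degree < n + 1 → MvPowerSeries.coeff e a = 0 := by
    intro e he
    refine MvPowerSeries.coeff_of_lt_order (lt_of_lt_of_le ?_ ha)
    exact_mod_cast he
  refine ⟨a0, a1, ?_, ?_, ?_⟩
  · refine MvPowerSeries.nat_le_order (fun e he => ?_)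
    rw [c0]
    apply hz
    rw [map_add, degree_single]
    omega
  · refine MvPowerSeries.nat_le_order (fun e he => ?_)
    rw [c1]
    split_ifs
    · apply hz
      rw [map_add, degree_single]
      omega
    · rfl
  · ext e
    rw [map_add, MvPowerSeries.X, MvPowerSeries.X, MvPowerSeries.coeff_monomial_mul,
      MvPowerSeries.coeff_monomial_mul, c0, c1]
    by_cases h0 : e 0 = 0
    · rw [if_neg, zero_add]
      · by_cases h1 : e 1 = 0
        · rw [if_neg]
          · apply hz
            have : e = 0 := by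
              ext i; fin_cases i
              · exact h0
              · exact h1
            rw [this]; simp
          · intro hle
            have := hle 1
            simp at this
            omega
        · have hle : single 1 1 ≤ e := by
            intro i; fin_cases i
            · simp
            · simp; omega
          rw [if_pos hle, one_mul, if_pos, tsub_add_cancel_of_le hle]
          rw [Finsupp.tsub_apply, h0]; simp
      · intro hle
        have := hle 0
        simp at this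
        omega
    · have hle : single 0 1 ≤ e := by
        intro i; fin_cases i
        · simp; omega
        · simp
      rw [if_pos hle, one_mul, tsub_add_cancel_of_le hle]
      split_ifs with h1 h2
      · exfalso
        rw [Finsupp.tsub_apply] at h2
        simp at h2
        omega
      · simp
      · simp

lemma la_add (a b : A) : la (a + b) = la a + la b := R_ext rfl (by
  rw [map_add, sn_la, sn_la, sn_la, map_add, map_add])

lemma la_mul (a b : A) : la (a * b) = la a * la b := R_ext rfl (by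
  rw [map_mul, sn_la, sn_la, sn_la, map_mul, map_mul])

lemma la_X_mem (i : Fin 2) : la (MvPowerSeries.X i) ∈ IsLocalRing.maximalIdeal R := by
  rw [mem_max]
  show MvPowerSeries.constantCoeff (MvPowerSeries.X i : A) = 0
  simp

lemma la_mem (n : ℕ) : ∀ a : A, (n : ℕ∞) ≤ a.order → la a ∈ IsLocalRing.maximalIdeal R ^ n := by
  induction n with
  | zero => intro a _; simp
  | succ n ih =>
    intro a ha
    obtain ⟨a0, a1, h0, h1, rfl⟩ := decomp n a ha
    rw [la_add, la_mul, la_mul, pow_succ']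
    exact Ideal.add_mem _ (Ideal.mul_mem_mul (la_X_mem 0) (ih a0 h0))
      (Ideal.mul_mem_mul (la_X_mem 1) (ih a1 h1))

lemma lb_mul (a b : B) : lb (a * b) = lb a * lb b := R_ext (by
  rw [map_mul, fs_lb, fs_lb, fs_lb, map_mul, map_mul]) rfl

lemma lb_pow (a : B) (n : ℕ) : lb (a ^ n) = lb a ^ n := R_ext (by
  rw [map_pow, fs_lb, fs_lb, map_pow, map_pow]) rfl

lemma lb_X_mem : lb PowerSeries.X ∈ IsLocalRing.maximalIdeal R := by
  rw [mem_max, ← c_sn, sn_lb]
  simp

lemma lb_mem (n : ℕ) (b : B) (hb : (n : ℕ∞) ≤ b.order) : lb b ∈ IsLocalRing.maximalIdeal R ^ n := by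
  have h1 : (PowerSeries.X : B) ^ n ∣ b := by
    rw [PowerSeries.X_pow_dvd_iff]
    intro m hm
    exact PowerSeries.coeff_of_lt_order _ (lt_of_lt_of_le (by exact_mod_cast hm) hb)
  obtain ⟨b', rfl⟩ := h1
  rw [lb_mul, lb_pow]
  exact Ideal.mul_mem_right _ _ (Ideal.pow_mem_pow lb_X_mem n)

lemma F_eq (n : ℕ) : IsLocalRing.maximalIdeal R ^ n = F n := by
  apply le_antisymm (pow_le_F n)
  intro r hr
  rcases Nat.eq_zero_or_pos n with rfl | hn
  · simp
  have hr1 : r ∈ F 1 := by
    refine ⟨le_trans ?_ hr.1, le_trans ?_ hr.2⟩ <;> exact_mod_cast hn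
  rw [F_one, mem_max] at hr1
  have h1 : r = la (fs r) + lb (sn r) := by
    refine R_ext ?_ ?_
    · rw [map_add, fs_la, fs_lb, c_sn, hr1, map_zero, add_zero]
    · rw [map_add, sn_la, sn_lb, c_fs, hr1, map_zero, zero_add]
  rw [h1]
  exact Ideal.add_mem _ (la_mem n _ hr.1) (lb_mem n _ hr.2)

/-! ### the completion is reduced -/

lemma sq_mem (n : ℕ) (r : R) (h : r ^ 2 ∈ IsLocalRing.maximalIdeal R ^ (2 * n)) :
    r ∈ IsLocalRing.maximalIdeal R ^ n := by
  rw [F_eq, mem_F] at *
  rw [map_pow, map_pow] at h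
  have key : ∀ t : ℕ∞, ((2 * n : ℕ) : ℕ∞) ≤ ((2 : ℕ) : ℕ∞) * t → (n : ℕ∞) ≤ t := by
    intro t ht
    induction t using ENat.recTopCoe with
    | top => exact le_top
    | coe t =>
      have : 2 * n ≤ 2 * t := by exact_mod_cast ht
      exact_mod_cast (by omega : n ≤ t)
  exact ⟨key _ (le_of_le_of_eq h.1 (ordA.pow _ 2)), key _ (le_of_le_of_eq h.2 (ordB.pow _ 2))⟩

instance : IsReduced (AdicCompletion (IsLocalRing.maximalIdeal R) R) := by
  rw [isReduced_iff_pow_one_lt 2 (by norm_num)]
  intro x hx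
  refine AdicCompletion.ext_evalₐ (fun n => ?_)
  obtain ⟨f, rfl⟩ := AdicCompletion.mk_surjective (IsLocalRing.maximalIdeal R) R x
  have h1 := congrArg (AdicCompletion.evalₐ (IsLocalRing.maximalIdeal R) (2 * n)) hx
  rw [map_pow, map_zero, AdicCompletion.evalₐ_mk, ← map_pow, Ideal.Quotient.eq_zero_iff_mem] at h1
  have h2 := sq_mem n _ h1
  rw [AdicCompletion.evalₐ_mk, map_zero, ← AdicCompletion.Ideal.mk_eq_mk _ (by omega : n ≤ 2 * n),
    Ideal.Quotient.eq_zero_iff_mem]
  exact h2

/-! ### the dimension -/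

lemma two_le_dim : (2 : WithBot ℕ∞) ≤ ringKrullDim R := by
  have h0 : (0 : WithBot ℕ∞) ≤ ringKrullDim (MvPowerSeries (Fin 0) ℚ) := ringKrullDim_nonneg_of_nontrivial
  have h1 : (1 : WithBot ℕ∞) ≤ ringKrullDim (MvPowerSeries (Fin 1) ℚ) := by
    rw [ringKrullDim_eq_of_ringEquiv (MvPowerSeries.finSuccEquiv ℚ 0).toRingEquiv]
    refine le_trans ?_ ringKrullDim_succ_le_ringKrullDim_powerseries
    calc (1 : WithBot ℕ∞) = 0 + 1 := by norm_num
      _ ≤ _ := add_le_add_left h0 1
  have h2 : (2 : WithBot ℕ∞) ≤ ringKrullDim (MvPowerSeries (Fin 2) ℚ) := by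
    rw [ringKrullDim_eq_of_ringEquiv (MvPowerSeries.finSuccEquiv ℚ 1).toRingEquiv]
    refine le_trans ?_ ringKrullDim_succ_le_ringKrullDim_powerseries
    calc (2 : WithBot ℕ∞) = 1 + 1 := by norm_num
      _ ≤ _ := add_le_add_left h1 1
  exact le_trans h2 (ringKrullDim_le_of_surjective fs fs_surj)

/-- the two parameters `y` and `z + x` -/
noncomputable def p1 : R := la (MvPowerSeries.X 0)
noncomputable def p2 : R := la (MvPowerSeries.X 1) + lb PowerSeries.X

lemma la_X_lb_X (i : Fin 2) : la (MvPowerSeries.X i) * lb PowerSeries.X = 0 := by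
  refine R_ext ?_ ?_
  · rw [map_mul, fs_lb, map_zero]; simp
  · rw [map_mul, sn_la, map_zero]; simp

lemma max_minimal : IsLocalRing.maximalIdeal R ∈ (Ideal.span ({p1, p2} : Set R)).minimalPrimes := by
  refine ⟨⟨inferInstance, ?_⟩, ?_⟩
  · rw [Ideal.span_le]
    rintro _ (rfl | rfl)
    · exact la_X_mem 0
    · exact Ideal.add_mem _ (la_X_mem 1) lb_X_mem
  · rintro P ⟨hP, hle⟩ -
    have h1 : p1 ∈ P := hle (Ideal.subset_span (Set.mem_insert _ _))
    have h2 : p2 ∈ P := hle (Ideal.subset_span (Set.mem_insert_of_mem _ rfl))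
    have h3 : lb PowerSeries.X ∈ P := by
      have h4 : lb PowerSeries.X * lb PowerSeries.X ∈ P := by
        have h5 := P.mul_mem_left (lb PowerSeries.X) h2
        have h6 : lb PowerSeries.X * p2 = lb PowerSeries.X * lb PowerSeries.X := by
          rw [p2, mul_add, mul_comm _ (la _), la_X_lb_X, zero_add]
        rwa [h6] at h5
      rcases hP.mem_or_mem h4 with h | h <;> exact h
    have h4 : la (MvPowerSeries.X 1) ∈ P := by
      have := P.sub_mem h2 h3
      rwa [p2, add_sub_cancel_right] at this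
    intro r hr
    have hF := hr
    rw [← F_one] at hF
    rw [mem_max] at hr
    have h5 : r = la (fs r) + lb (sn r) := by
      refine R_ext ?_ ?_
      · rw [map_add, fs_la, fs_lb, c_sn, hr, map_zero, add_zero]
      · rw [map_add, sn_la, sn_lb, c_fs, hr, map_zero, zero_add]
    obtain ⟨a0, a1, -, -, ha⟩ := decomp 0 (fs r) (by simpa using hF.1)
    obtain ⟨b', hb⟩ : (PowerSeries.X : B) ∣ sn r := by
      rw [PowerSeries.X_dvd_iff, c_sn, hr]
    rw [h5, ha, hb, la_add, la_mul, la_mul, lb_mul]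
    exact P.add_mem (P.add_mem (P.mul_mem_right _ h1) (P.mul_mem_right _ h4)) (P.mul_mem_right _ h3)

lemma dim_R : ringKrullDim R = 2 := by
  apply le_antisymm _ two_le_dim
  rw [← IsLocalRing.maximalIdeal_height_eq_ringKrullDim]
  have h1 := Ideal.height_le_card_of_mem_minimalPrimes_span (Set.toFinite _) max_minimal
  have h2 : ({p1, p2} : Set R).ncard ≤ 2 := by
    refine le_trans (Set.ncard_insert_le _ _) ?_
    rw [Set.ncard_singleton]
  have h3 : (IsLocalRing.maximalIdeal R).height ≤ (2 : ℕ∞) := le_trans h1 (by exact_mod_cast h2)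
  exact WithBot.coe_le_coe.2 h3


/-! ### lengths -/

abbrev Idx (n : ℕ) : Type := (k : Fin (n + 1)) × Fin (k.1 + 1)

open Finsupp in
noncomputable def ex (i j : ℕ) : Fin 2 →₀ ℕ := single 0 i + single 1 j

open Finsupp in
lemma ex_eta (e : Fin 2 →₀ ℕ) : ex (e 0) (e 1) = e := by
  ext i
  fin_cases i <;> simp [ex]

open Finsupp in
lemma ex_zero (i j : ℕ) : ex i j 0 = i := by simp [ex]
open Finsupp in
lemma ex_one (i j : ℕ) : ex i j 1 = j := by simp [ex]

lemma degree_fin2 (e : Fin 2 →₀ ℕ) : e.degree = e 0 + e 1 := by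
  rw [Finsupp.degree_eq_sum, Fin.sum_univ_two]

/-- the coefficients of degree at most `n` -/
noncomputable def Phi (n : ℕ) : R →ₗ[ℚ] (Idx n → ℚ) × (Fin n → ℚ) where
  toFun r := (fun p => MvPowerSeries.coeff (ex p.2.1 (p.1.1 - p.2.1)) (fs r),
    fun i => PowerSeries.coeff (i.1 + 1) (sn r))
  map_add' r s := by
    ext i
    · simp only [map_add]; rfl
    · simp only [map_add]; rfl
  map_smul' a r := by
    have h1 : fs (a • r) = a • fs r := rfl
    have h2 : sn (a • r) = a • sn r := rfl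
    ext i
    · simp only [h1]; rfl
    · simp only [h2, map_smul]; rfl

lemma Phi_ker (n : ℕ) : LinearMap.ker (Phi n) = (F (n + 1)).restrictScalars ℚ := by
  ext r
  rw [LinearMap.mem_ker, Submodule.restrictScalars_mem]
  constructor
  · intro h
    have h1 : ∀ p : Idx n, MvPowerSeries.coeff (ex p.2.1 (p.1.1 - p.2.1)) (fs r) = 0 :=
      fun p => congrFun (congrArg Prod.fst h) p
    have h2 : ∀ i : Fin n, PowerSeries.coeff (i.1 + 1) (sn r) = 0 :=
      fun p => congrFun (congrArg Prod.snd h) p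
    have h3 : ∀ e : Fin 2 →₀ ℕ, e.degree < n + 1 → MvPowerSeries.coeff e (fs r) = 0 := by
      intro e he
      rw [degree_fin2] at he
      have := h1 ⟨⟨e 0 + e 1, he⟩, ⟨e 0, by simp⟩⟩
      simp only [Nat.add_sub_cancel_left, ex_eta] at this
      exact this
    refine ⟨MvPowerSeries.nat_le_order h3, PowerSeries.nat_le_order _ _ (fun i hi => ?_)⟩
    rcases Nat.eq_zero_or_pos i with rfl | hi0
    · rw [PowerSeries.coeff_zero_eq_constantCoeff_apply, c_sn, ← c_fs,
        ← MvPowerSeries.coeff_zero_eq_constantCoeff_apply]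
      exact h3 0 (by simp)
    · have := h2 ⟨i - 1, by omega⟩
      simpa [Nat.sub_add_cancel hi0] using this
  · rintro ⟨h1, h2⟩
    ext p
    · refine MvPowerSeries.coeff_of_lt_order (lt_of_lt_of_le ?_ h1)
      rw [degree_fin2, ex_zero, ex_one]
      have := p.1.2
      have := p.2.2
      have h3 : p.2.1 + (p.1.1 - p.2.1) < n + 1 := by omega
      exact_mod_cast h3
    · refine PowerSeries.coeff_of_lt_order _ (lt_of_lt_of_le ?_ h2)
      have := p.2
      exact_mod_cast (by omega : p.1 + 1 < n + 1)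

lemma Phi_surj (n : ℕ) : Function.Surjective (Phi n) := by
  rintro ⟨g, h⟩
  let a : A := fun e => if he : e 0 + e 1 < n + 1 then g ⟨⟨e 0 + e 1, he⟩, ⟨e 0, by simp⟩⟩ else 0
  have ca : ∀ e, MvPowerSeries.coeff e a =
    if he : e 0 + e 1 < n + 1 then g ⟨⟨e 0 + e 1, he⟩, ⟨e 0, by simp⟩⟩ else 0 := fun e => rfl
  let b : B := PowerSeries.mk (fun i => if hi : 1 ≤ i ∧ i - 1 < n then h ⟨i - 1, hi.2⟩
    else MvPowerSeries.constantCoeff a)
  refine ⟨⟨(a, b), ?_⟩, ?_⟩
  · rw [mem_R]
    show MvPowerSeries.constantCoeff a = PowerSeries.constantCoeff b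
    rw [← PowerSeries.coeff_zero_eq_constantCoeff_apply, PowerSeries.coeff_mk]
    simp
  · ext p
    · show MvPowerSeries.coeff (ex p.2.1 (p.1.1 - p.2.1)) a = g p
      rw [ca]
      obtain ⟨⟨k, hk⟩, ⟨j, hj⟩⟩ := p
      simp only at hj
      have key : ∀ (m j' : ℕ) (hm : m < n + 1) (hj' : j' < m + 1), m = k → j' = j →
          g ⟨⟨m, hm⟩, ⟨j', hj'⟩⟩ = g ⟨⟨k, hk⟩, ⟨j, hj⟩⟩ := by
        rintro m j' hm hj' rfl rfl
        rfl
      rw [dif_pos (by rw [ex_zero, ex_one]; simp only; omega)]
      exact key _ _ _ _ (by rw [ex_zero, ex_one]; simp only; omega) (ex_zero _ _)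
    · show PowerSeries.coeff (p.1 + 1) b = h p
      rw [PowerSeries.coeff_mk, dif_pos ⟨by omega, by have := p.2; omega⟩]
      simp


lemma card_Idx (n : ℕ) : Fintype.card (Idx n) = (n + 2).choose 2 := by
  rw [Fintype.card_sigma]
  simp only [Fintype.card_fin]
  rw [Fin.sum_univ_eq_sum_range (fun i => i + 1) (n + 1)]
  induction n with
  | zero => simp
  | succ n ih =>
    rw [Finset.sum_range_succ, ih, Nat.choose_succ_succ' (n + 2) 1]
    simp; ring

lemma quot_finrank (n : ℕ) : Module.Finite ℚ (R ⧸ F (n + 1)) ∧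
    Module.finrank ℚ (R ⧸ F (n + 1)) = (n + 2).choose 2 + n := by
  have e1 : (R ⧸ (F (n + 1)).restrictScalars ℚ) ≃ₗ[ℚ] ((Idx n → ℚ) × (Fin n → ℚ)) :=
    (Submodule.quotEquivOfEq _ _ (Phi_ker n).symm).trans
      ((Phi n).quotKerEquivOfSurjective (Phi_surj n))
  have e2 : (R ⧸ F (n + 1)) ≃ₗ[ℚ] ((Idx n → ℚ) × (Fin n → ℚ)) :=
    (Submodule.Quotient.restrictScalarsEquiv ℚ (F (n + 1))).symm.trans e1
  refine ⟨Module.Finite.equiv e2.symm, ?_⟩
  rw [e2.finrank_eq, Module.finrank_prod, Module.finrank_fintype_fun_eq_card,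
    Module.finrank_fintype_fun_eq_card, card_Idx, Fintype.card_fin]

lemma residue (b : R) : ∃ q : ℚ, b - algebraMap ℚ R q ∈ IsLocalRing.maximalIdeal R := by
  refine ⟨c b, ?_⟩
  rw [mem_max, map_sub]
  have : c (algebraMap ℚ R (c b)) = c b := by
    show MvPowerSeries.constantCoeff (algebraMap ℚ A (c b)) = c b
    rw [MvPowerSeries.algebraMap_apply]
    simp
  rw [this, sub_self]

noncomputable instance modQ (n : ℕ) : Module R (R ⧸ F n) := Submodule.Quotient.module (F n)

lemma length_eq (n : ℕ) : Module.length R (R ⧸ F (n + 1)) = (((n + 2).choose 2 + n : ℕ) : ℕ∞) := by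
  obtain ⟨hfin, hrank⟩ := quot_finrank n
  have h1 : IsNoetherian R (R ⧸ F (n + 1)) := isNoetherian_of_tower ℚ inferInstance
  have h2 : IsArtinian R (R ⧸ F (n + 1)) := isArtinian_of_tower ℚ inferInstance
  have h3 : IsFiniteLength R (R ⧸ F (n + 1)) := isFiniteLength_iff_isNoetherian_isArtinian.2 ⟨h1, h2⟩
  rw [(Pool.Agent.W450.Der.length_eq_finrank (k := ℚ) residue h3).2, hrank]

/-- the integral closure of the powers of the maximal ideal -/
lemma closure_eq (n : ℕ) (x : R) : x ∈ F n ↔
    ∃ k : ℕ, 0 < k ∧ ∃ a : ℕ → R, (∀ j, a j ∈ (IsLocalRing.maximalIdeal R ^ n) ^ j) ∧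
      x ^ k + ∑ j ∈ Finset.range k, a (k - j) * x ^ j = 0 := by
  constructor
  · intro hx
    refine ⟨1, one_pos, fun j => if j = 1 then -x else 0, fun j => ?_, by simp⟩
    by_cases hj : j = 1
    · subst hj
      simp only [if_true, pow_one, F_eq]
      exact (F n).neg_mem hx
    · simp only [if_neg hj]
      exact Ideal.zero_mem _
  · rintro ⟨k, hk, a, ha, he⟩
    have ha' : ∀ j, a j ∈ F (n * j) := by
      intro j
      rw [← F_eq, pow_mul]
      exact ha j
    refine ⟨ordA.integral n (fs x) k hk (fun j => fs (a j)) (fun j => (ha' j).1) ?_,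
      ordB.integral n (sn x) k hk (fun j => sn (a j)) (fun j => (ha' j).2) ?_⟩
    · have := congrArg fs he
      rwa [map_zero, map_add, map_pow, map_sum, Finset.sum_congr rfl
        (fun j _ => by rw [map_mul, map_pow])] at this
    · have := congrArg sn he
      rwa [map_zero, map_add, map_pow, map_sum, Finset.sum_congr rfl
        (fun j _ => by rw [map_mul, map_pow])] at this

end Pool.Agent.N132.NH
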